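import Pool.Agent.Helper729.SRPMain

/-!
# Surjective preservers of the spectral radius of each of the five products

For a surjective map `φ : 𝓑(X) → 𝓑(Y)` (no linearity, additivity or continuity assumed) between
the algebras of bounded operators of two complex Banach spaces:

* (a) `r(φ(T) φ(S)) = r(T S)` for all `T`, `S`, or (b) `r(φ(S) φ(T) φ(S)) = r(S T S)` for all
  `T`, `S`, or (c) `r(φ(T) φ(S) + φ(S) φ(T)) = r(T S + S T)` for all `T`, `S`, if and only if
  `φ(T) = c(T) A T A⁻¹` or (`X` reflexive) `φ(T) = c(T) A T* A⁻¹`, with `A` a bounded bijective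
  linear or conjugate-linear map, and `|c(T)| = 1`;
* (d) `r(φ(T) φ(S) - φ(S) φ(T)) = r(T S - S T)` for all `T`, `S` if and only if
  `φ(T) = c(T) A T A⁻¹ + d(T)` or `φ(T) = c(T) A T* A⁻¹ + d(T)` with `c(T)`, `A` as above and
  `d(T)` a scalar, or `dim X ≤ 1` and `Y = 0`;
* (e) for Hilbert spaces, `r(φ(T) φ(S) - φ(S) φ(T)*) = r(T S - S T*)` for all `T`, `S` if and only
  if there is a unitary or antiunitary `U : H → K` such that for each `T`: `φ(T) = ± U T U⁻¹`, or
  `φ(T) = ± U T* U⁻¹` and `T = l + i A` with `l` real and `A` selfadjoint, or `T = l + r V` with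
  `l`, `r` real and `V` unitary.
-/

set_option autoImplicit false

universe u v w x

open Pool.Agent.Helper729.SRPDefs in
theorem Pool.Agent.Results.MP_339e9c_an.AllProducts.result :
    (∀ (X : Type u) (Y : Type v) [NormedAddCommGroup X] [NormedSpace ℂ X] [CompleteSpace X]
      [NormedAddCommGroup Y] [NormedSpace ℂ Y] [CompleteSpace Y]
      (φ : (X →L[ℂ] X) → (Y →L[ℂ] Y)), Function.Surjective φ →
      (PreservesProduct φ ↔ IsStandardUpToPhase φ) ∧
      (PreservesTripleProduct φ ↔ IsStandardUpToPhase φ) ∧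
      (PreservesJordanProduct φ ↔ IsStandardUpToPhase φ) ∧
      (PreservesLieProduct φ ↔
        IsStandardUpToPhaseAndShift φ ∨ (Module.rank ℂ X ≤ 1 ∧ Subsingleton Y))) ∧
    (∀ (H : Type w) (K : Type x) [NormedAddCommGroup H] [InnerProductSpace ℂ H]
      [CompleteSpace H] [NormedAddCommGroup K] [InnerProductSpace ℂ K] [CompleteSpace K]
      (φ : (H →L[ℂ] H) → (K →L[ℂ] K)), Function.Surjective φ →
      (PreservesSkewLieProduct φ ↔ IsSkewStandard φ)) :=
  ⟨fun _ _ _ _ _ _ _ _ φ hφ => ⟨Pool.Agent.Helper729.SRP.main_a φ hφ,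
    Pool.Agent.Helper729.SRP.main_b φ hφ, Pool.Agent.Helper729.SRP.main_c φ hφ,
    Pool.Agent.Helper729.SRP.main_d φ hφ⟩,
    fun _ _ _ _ _ _ _ _ φ hφ => Pool.Agent.Helper729.SRP.main_e φ hφ⟩
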